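import Pool.Agent.helper17.EXT.Spec

set_option autoImplicit false

open Finset

namespace Pool.Agent.EXT

open Pool.Agent.EXC

/-- the vectors `c • u (E β')` -/
def YSS_S {K : Type} [Field K] (τ : K ≃+* K) (v : Lm C6 K) : Prop :=
  ∃ u ∈ GS τ, u ∈ UG C6 K ∧ ∃ β', LR β' ∧ ∃ c : K, τ c = c ∧ c ≠ 0 ∧ v = c • (u (E C6 β') : Lm C6 K)

theorem YSS_pvsr (i : Fin 6) : pv (sr i) = sr (pn i) := by
  revert i
  decide

theorem YSS_srinj (i j : Fin 6) (h : (sr i : Fin 6 → ℤ) = sr j) : i = j := by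
  revert i j
  decide

theorem YSS_SR (i : Fin 6) (h : pn i ≠ i) : SR (sr i) := by
  refine ⟨ip_sr_self C6 i, ?_⟩
  rw [YSS_pvsr]
  intro e
  exact h (YSS_srinj _ _ e)

theorem YSS_pvneg (v : Fin 6 → ℤ) : pv (-v) = -pv v := rfl

theorem YSS_SRneg (i : Fin 6) (h : pn i ≠ i) : SR (-sr i) := by
  refine ⟨neg_root C6 (ip_sr_self C6 i), ?_⟩
  rw [YSS_pvneg]
  intro e
  exact (YSS_SR i h).2 (neg_injective e)

theorem YSS_hb : ∀ α, ip C6 α α = 2 → ∃ β, ip C6 β β = 2 ∧ ip C6 α β = -1 :=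
  (f_NBR 6 C6 1 th ![0, 2, 3, 4, 5] f_DE6.2).1

theorem YSS_XUG {K : Type} [Field K] (τ : K ≃+* K) (i : Fin 6) (t : K) (x : Lm C6 K ≃ₗ[K] Lm C6 K)
    (hx : XI τ i t x) : x ∈ UG C6 K := by
  have key : ∀ (j : Fin 6) (s : K) (g : Lm C6 K ≃ₗ[K] Lm C6 K), IsX C6 (E C6 (sr j)) s g → g ∈ UG C6 K := by
    intro j s g hg
    exact Subgroup.subset_closure ⟨sr j, ip_sr_self C6 j, YST_pos j, s, hg⟩
  rcases hx with ⟨_, _, hx⟩ | ⟨_, hx⟩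
  · exact key i t x hx
  · obtain ⟨-, hE, hX, -⟩ := f_EXF 6 C6 K YSS_hb
    obtain ⟨-, -, -, -, h5, -⟩ := hX (E C6 (sr i)) (hE _ (ip_sr_self C6 i))
    obtain ⟨-, -, -, -, h5', -⟩ := hX (E C6 (sr (pn i))) (hE _ (ip_sr_self C6 (pn i)))
    obtain ⟨g1, -, hg1⟩ := h5 t
    obtain ⟨g2, -, hg2⟩ := h5' ((sn (sr i) : K) * τ t)
    have e : x = g1 * g2 := by
      apply LinearEquiv.ext
      intro v
      rw [hx v, YSS_pvsr]
      show _ = g1 (g2 v)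
      rw [hg1, hg2]
    rw [e]
    exact (UG C6 K).mul_mem (key _ _ _ hg1) (key _ _ _ hg2)

theorem YSS_invS (hSGR : SGR_stmt) {K : Type} [Field K] (τ : K ≃+* K) (hτ : ∀ x, τ (τ x) = x)
    (γ : Fin 6 → ℤ) (hγ : SR γ) (t : K) (g : Lm C6 K ≃ₗ[K] Lm C6 K) (hg : IsS τ γ t g) :
    IsS τ γ (-t) g⁻¹ := by
  obtain ⟨h1, -, h3, -⟩ := hSGR K τ hτ
  obtain ⟨h, -, hh⟩ := h1 γ (-t) hγ
  have h4 := h3 γ t (-t) g h hγ hg hh
  rw [add_neg_cancel] at h4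
  have h5 : g * h = 1 := by
    apply LinearEquiv.ext
    intro v
    rw [h4 v, map_zero, mul_zero, YST_xe_zero, YST_xe_zero]
    rfl
  rw [inv_eq_of_mul_eq_one_right h5]
  exact hh

theorem YSS_invX {K : Type} [Field K] (α : Fin 6 → ℤ) (hα : ip C6 α α = 2)
    (t : K) (g : Lm C6 K ≃ₗ[K] Lm C6 K) (hg : IsX C6 (E C6 α) t g) : IsX C6 (E C6 α) (-t) g⁻¹ := by
  obtain ⟨-, hE, hX, -⟩ := f_EXF 6 C6 K YSS_hb
  obtain ⟨-, -, -, -, h5, -, -, -, h9⟩ := hX (E C6 α) (hE _ hα)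
  exact YST_inv C6 K _ h5 h9 t g hg

theorem YSS (hSGR : SGR_stmt) (hGEP : GEP_stmt) (hUPR : UPR_stmt) (hUDC : UDC_stmt) (hRKS : RKS_stmt) : YSS_stmt := by
  intro K _ τ hτ g hg β hβ
  obtain ⟨-, -, -, -, hgen, -⟩ := hSGR K τ hτ
  have hstab1 : ∀ (i : Fin 6) (t : K) (x : Lm C6 K ≃ₗ[K] Lm C6 K), XI τ i t x → ∀ v, YSS_S τ v → YSS_S τ (x v) := by
    intro i t x hx v hv
    obtain ⟨u, hu, huU, β', hβ', c, hc, hc0, rfl⟩ := hv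
    refine ⟨x * u, (GS τ).mul_mem (hgen i t x (Or.inl hx)) hu,
      (UG C6 K).mul_mem (YSS_XUG τ i t x hx) huU, β', hβ', c, hc, hc0, ?_⟩
    rw [map_smul]
    rfl
  have hstab2 : ∀ (i : Fin 6) (t : K) (y : Lm C6 K ≃ₗ[K] Lm C6 K), YI τ i t y → ∀ v, YSS_S τ v → YSS_S τ (y v) := by
    intro i t y hy v hv
    obtain ⟨u, hu, huU, β', hβ', c, hc, hc0, rfl⟩ := hv
    obtain ⟨hD1, hD2⟩ := hUDC K τ hτ i
    obtain ⟨u', hu', hu'J, s, x, hxG, hxU, hxX, rfl⟩ := hD1 u hu huU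
    obtain ⟨hUle, -, -⟩ := hUPR K i
    have hn := hD2 u' hu'J t y (Or.inr hy)
    obtain ⟨β'', hβ'', c', hc', hc0', s', x', hx', he⟩ := hRKS K τ hτ i β' s t x y hβ' hxX hy
    have hyG : y ∈ GS τ := hgen i t y (Or.inr hy)
    have hnG : y * u' * y⁻¹ ∈ GS τ := (GS τ).mul_mem ((GS τ).mul_mem hyG hu') ((GS τ).inv_mem hyG)
    refine ⟨y * u' * y⁻¹ * x', (GS τ).mul_mem hnG (hgen i s' x' (Or.inl hx')),
      (UG C6 K).mul_mem (hUle hn) (YSS_XUG τ i s' x' hx'), β'', hβ'', c * c', ?_,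
      mul_ne_zero hc0 hc0', ?_⟩
    · rw [map_mul, hc, hc']
    have e1 : (y * u' * y⁻¹ * x') (E C6 β'') = y (u' (y⁻¹ (x' (E C6 β'')))) := rfl
    have e2 : (u' * x) (E C6 β') = u' (x (E C6 β')) := rfl
    have e4 : x (E C6 β') = c' • y⁻¹ (x' (E C6 β'')) := by
      rw [← map_smul, ← he]
      exact (LinearEquiv.symm_apply_apply y _).symm
    rw [e1, e2, map_smul, e4, map_smul, map_smul, smul_smul]
  have hinv : ∀ (x : Lm C6 K ≃ₗ[K] Lm C6 K), (∃ i t, XI τ i t x ∨ YI τ i t x) →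
      ∃ i t, XI τ i t x⁻¹ ∨ YI τ i t x⁻¹ := by
    rintro x ⟨i, t, (⟨h1, h2, h3⟩ | ⟨h1, h3⟩) | (⟨h1, h2, h3⟩ | ⟨h1, h3⟩)⟩
    · exact ⟨i, -t, Or.inl (Or.inl ⟨h1, by rw [map_neg, h2], YSS_invX _ (ip_sr_self C6 i) t x h3⟩)⟩
    · exact ⟨i, -t, Or.inl (Or.inr ⟨h1, YSS_invS hSGR τ hτ _ (YSS_SR i h1) t x h3⟩)⟩
    · exact ⟨i, -t, Or.inr (Or.inl ⟨h1, by rw [map_neg, h2],
        YSS_invX _ (neg_root C6 (ip_sr_self C6 i)) t x h3⟩)⟩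
    · exact ⟨i, -t, Or.inr (Or.inr ⟨h1, YSS_invS hSGR τ hτ _ (YSS_SRneg i h1) t x h3⟩)⟩
  have hgenst : ∀ (x : Lm C6 K ≃ₗ[K] Lm C6 K), (∃ i t, XI τ i t x ∨ YI τ i t x) →
      ∀ v, YSS_S τ v → YSS_S τ (x v) := by
    rintro x ⟨i, t, hx | hx⟩
    · exact hstab1 i t x hx
    · exact hstab2 i t x hx
  have hstab : ∀ g ∈ GP τ, ∀ v, YSS_S τ v → YSS_S τ (g v) := by
    intro g hg
    unfold GP at hg
    induction hg using Subgroup.closure_induction_left with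
    | one => intro v hv; exact hv
    | mul_left x hx y hy ih =>
      intro v hv
      exact hgenst x hx _ (ih v hv)
    | inv_mul_cancel x hx y hy ih =>
      intro v hv
      exact hgenst x⁻¹ (hinv x hx) _ (ih v hv)
  have hg' : g ∈ GP τ := by
    rw [← hGEP K τ hτ]
    exact hg
  have h0 : YSS_S τ (E C6 β) := ⟨1, (GS τ).one_mem, (UG C6 K).one_mem, β, hβ, 1, map_one τ, one_ne_zero,
    (one_smul K _).symm⟩
  exact hstab g hg' (E C6 β) h0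

end Pool.Agent.EXT
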